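import Pool.Agent.N236.UR.Stm6

/-!
# Project UR: purely transcendental extensions of `ℚ` embed in `ℚ_p`
-/

set_option autoImplicit false

namespace Pool.Agent.N663.UR

open Cardinal

theorem t_trans : Pool.Agent.N236.UR.S_TRANS := by
  intro p _ n
  obtain ⟨ι, x, hx⟩ := exists_isTranscendenceBasis' ℚ ℚ_[p]
  have hcont : 𝔠 ≤ #ℚ_[p] :=
    continuum_le_cardinal_of_nontriviallyNormedField ℚ_[p]
  have hinf : Infinite ι := by
    by_contra hfin
    rw [not_infinite_iff_finite] at hfin
    have hle : #ℚ_[p] ≤ ℵ₀ := by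
      rcases isEmpty_or_nonempty ι with h | h
      · have h1 : Algebra.IsAlgebraic ℚ ℚ_[p] := by
          rw [← Algebra.transcendental_iff_not_isAlgebraic.not_left, ← hx.nonempty_iff_transcendental]
          simpa using h
        have h2 := Algebra.IsAlgebraic.cardinalMk_le_max ℚ ℚ_[p]
        simpa using h2
      · have h1 := hx.lift_cardinalMk_eq_max_lift
        simp only [Cardinal.lift_id] at h1
        rw [h1]
        have h3 : #ι ≤ ℵ₀ := (lt_aleph0_of_finite ι).le
        simp [h3]
    exact absurd (hcont.trans hle) (not_le.2 aleph0_lt_continuum)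
  let e : Fin n ↪ ι := Fin.valEmbedding.trans (Infinite.natEmbedding ι)
  have hind : AlgebraicIndependent ℚ (x ∘ e) := hx.1.comp e e.injective
  exact ⟨IsFractionRing.lift (A := MvPolynomial (Fin n) ℚ)
    (g := (MvPolynomial.aeval (x ∘ e) : MvPolynomial (Fin n) ℚ →ₐ[ℚ] ℚ_[p]).toRingHom) hind⟩

end Pool.Agent.N663.UR
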